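import Pool.Agent.helper58.CRO.SpecA

set_option autoImplicit false

open scoped Manifold ContDiff Topology ENNReal
open MeasureTheory Set

noncomputable section

namespace Pool.Agent.CRO

/-- the algebraic identity `p - P Fi x = Fi^T c` -/
theorem RED_alg {n : ℕ} (Y Ys : PS n →L[ℝ] PS n) (Fi : En n →L[ℝ] En n)
    (hY : ∀ v w, symp (Y v) (Y w) = symp v w) (hYs : ∀ v w, symp (Ys v) (Ys w) = symp v w)
    (hFi : ∀ ξ, Fi (Y (0, ξ)).1 = ξ ∧ (Y (0, Fi ξ)).1 = ξ) (v : PS n) (η : En n)
    (hv : Ys v = (0, η)) :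
    (Y v).2 - (Y (0, Fi (Y v).1)).2 = ContinuousLinearMap.adjoint Fi
        (ContinuousLinearMap.adjoint ((ContinuousLinearMap.fst ℝ (En n) (En n)).comp
          (Ys.comp (ContinuousLinearMap.inr ℝ (En n) (En n)))) η) := by
  apply ext_inner_left ℝ
  intro ζ
  rw [ContinuousLinearMap.adjoint_inner_right, ContinuousLinearMap.adjoint_inner_right]
  show inner ℝ ζ _ = inner ℝ (Ys (0, Fi ζ)).1 η
  rw [inner_sub_right]
  have h1 : symp (Y (0, Fi ζ)) (Y v) = symp (Ys (0, Fi ζ)) (Ys v) := by rw [hY, hYs]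
  have h2 : symp (Y (0, Fi ζ)) (Y (0, Fi (Y v).1)) = 0 := by
    rw [hY]
    unfold symp
    simp
  unfold symp at h1 h2
  rw [hv] at h1
  rw [(hFi ζ).2] at h1 h2
  rw [(hFi (Y v).1).2] at h2
  rw [inner_zero_right, sub_zero] at h1
  linarith

theorem RED : RED_stmt := by
  intro n A Y s t Fi hA hsympA hY hsympY hst hFi v η hv
  set F : ℝ → En n →L[ℝ] En n := fun r => (ContinuousLinearMap.fst ℝ (En n) (En n)).comp
    ((Y r).comp (ContinuousLinearMap.inr ℝ (En n) (En n))) with hF
  have hFapp : ∀ r ξ, F r ξ = (Y r (0, ξ)).1 := fun r ξ => rfl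
  set c : En n := ContinuousLinearMap.adjoint (F s) η with hc
  have h1 : ∀ r ∈ Icc s t, F r * Fi r = 1 := fun r hr =>
    ContinuousLinearMap.ext fun ξ => (hFi r hr ξ).2
  have h2 : ∀ r ∈ Icc s t, Fi r * F r = 1 := fun r hr =>
    ContinuousLinearMap.ext fun ξ => (hFi r hr ξ).1
  have hinv : ∀ r ∈ Icc s t, Ring.inverse (F r) = Fi r := fun r hr =>
    Ring.inverse_unit ⟨F r, Fi r, h1 r hr, h2 r hr⟩
  have hYc : Continuous Y := continuous_iff_continuousAt.2 fun r => (hY r).continuousAt
  have hFd : ∀ r, HasDerivAt F ((ContinuousLinearMap.fst ℝ (En n) (En n)).comp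
      (((A r).comp (Y r)).comp (ContinuousLinearMap.inr ℝ (En n) (En n)))) r := by
    intro r
    have h3 := (hasDerivAt_const r (ContinuousLinearMap.fst ℝ (En n) (En n))).clm_comp
      ((hY r).clm_comp (hasDerivAt_const r (ContinuousLinearMap.inr ℝ (En n) (En n))))
    simpa using h3
  have hFc : Continuous F := continuous_iff_continuousAt.2 fun r => (hFd r).continuousAt
  have hxd : ∀ r, HasDerivAt (fun r => (Y r v).1) ((A r (Y r v)).1) r := by
    intro r
    have h3 := (ContinuousLinearMap.fst ℝ (En n) (En n)).hasFDerivAt.comp_hasDerivAt r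
      ((hY r).clm_apply (hasDerivAt_const r v))
    refine HasDerivAt.congr_deriv (f := fun r => (Y r v).1) h3 ?_
    show (((A r).comp (Y r)) v + Y r 0).1 = _
    rw [map_zero, add_zero]
    rfl
  set G : ℝ → En n := fun r => Ring.inverse (F r) (Y r v).1 with hG
  have hGd : ∀ r ∈ Icc s t, HasDerivAt G (Ring.inverse (F r) (A r (0,
      ContinuousLinearMap.adjoint (Ring.inverse (F r)) c)).1) r := by
    intro r hr
    have h3 := (hasFDerivAt_ringInverse (𝕜 := ℝ) (⟨F r, Fi r, h1 r hr, h2 r hr⟩ :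
      (En n →L[ℝ] En n)ˣ)).comp_hasDerivAt r (hFd r)
    have h4 := h3.clm_apply (hxd r)
    rw [hinv r hr]
    have h5 := RED_alg (Y r) (Y s) (Fi r) (hsympY r) (hsympY s) (hFi r hr) v η hv
    have h6 : ContinuousLinearMap.adjoint (Fi r) c = (Y r v).2 - (Y r (0, Fi r (Y r v).1)).2 :=
      h5.symm
    rw [h6]
    refine h4.congr_deriv ?_
    have h7 : ((0 : En n), (Y r v).2 - (Y r (0, Fi r (Y r v).1)).2)
        = Y r v - Y r (0, Fi r (Y r v).1) := by
      apply Prod.ext
      · show (0 : En n) = (Y r v).1 - (Y r (0, Fi r (Y r v).1)).1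
        rw [(hFi r hr _).2, sub_self]
      · rfl
    rw [h7, map_sub]
    show -(Fi r (A r (Y r (0, Fi r (Y r v).1))).1) + Ring.inverse (F r) (A r (Y r v)).1 = _
    rw [hinv r hr, Prod.fst_sub, map_sub]
    abel
  have hic : ContinuousOn (fun r => Ring.inverse (F r)) (Icc s t) := by
    intro r hr
    apply ContinuousAt.continuousWithinAt
    have h3 := NormedRing.inverse_continuousAt (⟨F r, Fi r, h1 r hr, h2 r hr⟩ :
      (En n →L[ℝ] En n)ˣ)
    exact ContinuousAt.comp (f := F) (g := Ring.inverse) h3 hFc.continuousAt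
  have hcont : ContinuousOn (fun r => Ring.inverse (F r) (A r (0,
      ContinuousLinearMap.adjoint (Ring.inverse (F r)) c)).1) (Icc s t) := by
    apply hic.clm_apply
    apply continuous_fst.comp_continuousOn
    apply hA.continuousOn.clm_apply
    apply continuousOn_const.prodMk
    have h3 : ContinuousOn (fun r => ContinuousLinearMap.adjoint (Ring.inverse (F r))) (Icc s t) :=
      (ContinuousLinearMap.adjoint (𝕜 := ℝ) (E := En n) (F := En n)).continuous.comp_continuousOn
        hic
    exact h3.clm_apply continuousOn_const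
  have hint := intervalIntegral.integral_eq_sub_of_hasDerivAt (a := s) (b := t)
    (f := G) (f' := fun r => Ring.inverse (F r) (A r (0,
      ContinuousLinearMap.adjoint (Ring.inverse (F r)) c)).1)
    (fun r hr => hGd r (by rwa [uIcc_of_le hst] at hr))
    (ContinuousOn.intervalIntegrable (by rwa [uIcc_of_le hst]))
  have hGs : G s = 0 := by
    show Ring.inverse (F s) (Y s v).1 = 0
    rw [hv]
    exact map_zero _
  rw [hGs, sub_zero] at hint
  have hcongr : (∫ r in s..t, Fi r (A r (0, ContinuousLinearMap.adjoint (Fi r) c)).1) = G t := by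
    rw [← hint]
    apply intervalIntegral.integral_congr
    intro r hr
    rw [uIcc_of_le hst] at hr
    show Fi r _ = Ring.inverse (F r) _
    rw [hinv r hr]
  show (Y t v).1 = (Y t (0, ∫ r in s..t, Fi r (A r (0,
    ContinuousLinearMap.adjoint (Fi r) c)).1)).1
  rw [hcongr]
  show (Y t v).1 = (Y t (0, Ring.inverse (F t) (Y t v).1)).1
  rw [hinv t (right_mem_Icc.2 hst)]
  exact ((hFi t (right_mem_Icc.2 hst) _).2).symm

end Pool.Agent.CRO
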