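import Pool.Agent.helper58.CRO.SpecE

set_option autoImplicit false

open scoped Manifold ContDiff Topology ENNReal
open MeasureTheory Set Bundle Filter

noncomputable section

namespace Pool.Agent.CRO

/-- the analytic part, for a parametrisation `f` of a piece of the sphere -/
theorem SPL_main {n m : ℕ} (f : En n → En m) (O : Set (En n)) (hO : IsOpen O)
    (hf : ContDiffOn ℝ ∞ f O) (hf1 : ∀ y, inner ℝ (f y) (f y) = (1 : ℝ)) (G : En n → En n → En n → ℝ)
    (hG : ∀ y ∈ O, ∀ v w : En n, G y v w = inner ℝ (fderiv ℝ f y v) (fderiv ℝ f y w))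
    (x : ℝ → En n) (X X' : ℝ → En m) (κ : ℝ) (U : Set ℝ) (hU : IsOpen U)
    (hxO : ∀ s ∈ U, x s ∈ O) (hx : ∀ s ∈ U, HasDerivAt x (deriv x s) s)
    (hfx : ∀ s ∈ U, f (x s) = X s)
    (hX : ∀ s ∈ U, HasDerivAt X (X' s) s) (hX' : ∀ s ∈ U, HasDerivAt X' (-(κ • X s)) s)
    (t : ℝ) (ht : t ∈ U) (w : En n) :
    HasDerivAt (fun s => G (x s) (deriv x s) w)
      ((1 / 2) * fderiv ℝ (fun y => G y (deriv x t) (deriv x t)) (x t) w) t := by
  have hfat : ∀ y ∈ O, ContDiffAt ℝ ∞ f y := fun y hy => hf.contDiffAt (hO.mem_nhds hy)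
  have hfd : ∀ y ∈ O, HasFDerivAt f (fderiv ℝ f y) y := fun y hy =>
    ((hfat y hy).differentiableAt (by simp)).hasFDerivAt
  have hfdd : ∀ y ∈ O, HasFDerivAt (fderiv ℝ f) (fderiv ℝ (fderiv ℝ f) y) y := fun y hy =>
    (((hfat y hy).fderiv_right (m := 1) (by norm_cast)).differentiableAt (by simp)).hasFDerivAt
  -- the velocity
  have hvel : ∀ s ∈ U, X' s = fderiv ℝ f (x s) (deriv x s) := by
    intro s hs
    have h1 : HasDerivAt (fun r => f (x r)) (fderiv ℝ f (x s) (deriv x s)) s :=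
      (hfd (x s) (hxO s hs)).comp_hasDerivAt s (hx s hs)
    have h2 : HasDerivAt X (fderiv ℝ f (x s) (deriv x s)) s := by
      apply h1.congr_of_eventuallyEq
      filter_upwards [hU.mem_nhds hs] with r hr
      exact (hfx r hr).symm
    exact (hX s hs).unique h2
  -- orthogonality
  have horth : inner ℝ (X t) (fderiv ℝ f (x t) w) = (0 : ℝ) := by
    have h1 := (hfd (x t) (hxO t ht)).inner ℝ (hfd (x t) (hxO t ht))
    have h2 : HasFDerivAt (fun y => (inner ℝ (f y) (f y) : ℝ)) (0 : En n →L[ℝ] ℝ) (x t) := by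
      have h3 : (fun y => (inner ℝ (f y) (f y) : ℝ)) = fun _ => (1 : ℝ) := funext hf1
      rw [h3]
      exact hasFDerivAt_const _ _
    have h4 := congrArg (fun L : En n →L[ℝ] ℝ => L w) (h1.unique h2)
    simp only [ContinuousLinearMap.comp_apply, ContinuousLinearMap.prod_apply,
      fderivInnerCLM_apply, ContinuousLinearMap.zero_apply] at h4
    rw [real_inner_comm (f (x t)) (fderiv ℝ f (x t) w), hfx t ht] at h4
    linarith
  have hsymm : fderiv ℝ (fderiv ℝ f) (x t) w (deriv x t)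
      = fderiv ℝ (fderiv ℝ f) (x t) (deriv x t) w := by
    have h1 : IsSymmSndFDerivAt ℝ f (x t) := by
      apply (hfat (x t) (hxO t ht)).isSymmSndFDerivAt
      rw [minSmoothness_of_isRCLikeNormedField]
      norm_cast
    exact h1 w (deriv x t)
  -- the right side
  have hR : fderiv ℝ (fun y => G y (deriv x t) (deriv x t)) (x t) w
      = 2 * inner ℝ (X' t) (fderiv ℝ (fderiv ℝ f) (x t) (deriv x t) w) := by
    have h1 : (fun y => G y (deriv x t) (deriv x t)) =ᶠ[𝓝 (x t)]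
        fun y => (inner ℝ (fderiv ℝ f y (deriv x t)) (fderiv ℝ f y (deriv x t)) : ℝ) := by
      filter_upwards [hO.mem_nhds (hxO t ht)] with y hy
      exact hG y hy _ _
    rw [h1.fderiv_eq]
    have h2 : HasFDerivAt (fun y => fderiv ℝ f y (deriv x t))
        ((fderiv ℝ (fderiv ℝ f) (x t)).flip (deriv x t)) (x t) := by
      have h3 := (hfdd (x t) (hxO t ht)).clm_apply
        (hasFDerivAt_const (deriv x t) (x t))
      simpa using h3
    have h4 := h2.inner ℝ h2
    rw [h4.fderiv]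
    simp only [ContinuousLinearMap.comp_apply, ContinuousLinearMap.prod_apply,
      fderivInnerCLM_apply, ContinuousLinearMap.flip_apply]
    rw [hsymm, ← hvel t ht, real_inner_comm (X' t) (fderiv ℝ (fderiv ℝ f) (x t) (deriv x t) w)]
    ring
  -- the left side
  have hL : HasDerivAt (fun s => (inner ℝ (X' s) (fderiv ℝ f (x s) w) : ℝ))
      (inner ℝ (X' t) (fderiv ℝ (fderiv ℝ f) (x t) (deriv x t) w)) t := by
    have h1 : HasDerivAt (fun s => fderiv ℝ f (x s)) (fderiv ℝ (fderiv ℝ f) (x t) (deriv x t)) t :=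
      (hfdd (x t) (hxO t ht)).comp_hasDerivAt t (hx t ht)
    have h2 : HasDerivAt (fun s => fderiv ℝ f (x s) w)
        (fderiv ℝ (fderiv ℝ f) (x t) (deriv x t) w) t := by
      have h3 := h1.clm_apply (hasDerivAt_const t w)
      simpa using h3
    have h4 := (hX' t ht).inner ℝ h2
    refine h4.congr_deriv ?_
    rw [inner_neg_left, real_inner_smul_left, horth]
    ring
  rw [hR]
  have h5 : (1 / 2 : ℝ) * (2 * inner ℝ (X' t) (fderiv ℝ (fderiv ℝ f) (x t) (deriv x t) w))
      = inner ℝ (X' t) (fderiv ℝ (fderiv ℝ f) (x t) (deriv x t) w) := by ring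
  rw [h5]
  apply hL.congr_of_eventuallyEq
  filter_upwards [hU.mem_nhds ht] with s hs
  rw [hG (x s) (hxO s hs), hvel s hs]

theorem SPL (h1 : SPF_stmt) : SPL_stmt := by
  intro n g hg γ I κ X' hI hγ hX
  refine ⟨hγ, fun e he t ht hte w => ?_⟩
  obtain ⟨hf, hcoef⟩ := h1 n g hg e he
  set U : Set ℝ := I ∩ γ ⁻¹' e.source with hUdef
  have hU : IsOpen U := hγ.continuousOn.isOpen_inter_preimage hI e.open_source
  have hsm : ∀ s ∈ U, ContDiffAt ℝ ∞ (fun u => e (γ u)) s := by
    intro s hs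
    have h2 : ContMDiffAt (𝓡 n) (𝓡 n) ∞ e (γ s) :=
      (contMDiffOn_of_mem_maximalAtlas he).contMDiffAt (e.open_source.mem_nhds hs.2)
    have h3 : ContMDiffAt 𝓘(ℝ, ℝ) (𝓡 n) ∞ γ s := hγ.contMDiffAt (hI.mem_nhds hs.1)
    exact contMDiffAt_iff_contDiffAt.1 (h2.comp s h3)
  refine SPL_main (fun y : En n => ((e.symm y : Sn n) : En (n + 1))) e.target e.open_target hf
    (fun y => ?_) (coef g e) hcoef (fun u => e (γ u)) (fun s => (γ s : En (n + 1))) X' κ U hU
    (fun s hs => e.map_source hs.2)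
    (fun s hs => ((hsm s hs).differentiableAt (by simp)).hasDerivAt)
    (fun s hs => ?_) (fun s hs => (hX s hs.1).1) (fun s hs => (hX s hs.1).2) t ⟨ht, hte⟩ w
  · rw [real_inner_self_eq_norm_sq, norm_eq_of_mem_sphere, one_pow]
  · show ((e.symm (e (γ s)) : Sn n) : En (n + 1)) = _
    rw [e.left_inv hs.2]

end Pool.Agent.CRO
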