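import Pool.Agent.helper58.CRO.SpecH

set_option autoImplicit false

open scoped Manifold ContDiff Topology ENNReal
open MeasureTheory Set

noncomputable section

namespace Pool.Agent.CRO

private theorem HKL_int (a b : ℝ) (hab : a ≤ b) (g : ℝ → ℝ) (hg : Continuous g)
    (h0 : ∀ x ∈ Ioo a b, 0 ≤ g x) :
    ∫⁻ x in Ioo a b, ENNReal.ofReal (g x) = ENNReal.ofReal (∫ x in a..b, g x) := by
  rw [intervalIntegral.integral_of_le hab, ← restrict_Ioo_eq_restrict_Ioc,
    ofReal_integral_eq_lintegral_ofReal]
  · exact (hg.integrableOn_Icc).mono_set Ioo_subset_Icc_self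
  · exact (ae_restrict_iff' measurableSet_Ioo).2 (ae_of_all _ h0)

open scoped Classical in
private theorem HKL_tri (K : ℝ → ℝ → ℝ≥0∞) (hK : Measurable (Function.uncurry K)) :
    ∫⁻ s in Ioo 0 Real.pi, ∫⁻ t in Ioo s Real.pi, K s t =
      ∫⁻ t in Ioo 0 Real.pi, ∫⁻ s in Ioo 0 t, K s t := by
  have hH : Measurable (Function.uncurry fun s t : ℝ =>
      if 0 < s ∧ s < t ∧ t < Real.pi then K s t else 0) := by
    apply Measurable.ite _ hK measurable_const
    exact (measurableSet_lt measurable_const measurable_fst).inter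
      ((measurableSet_lt measurable_fst measurable_snd).inter
        (measurableSet_lt measurable_snd measurable_const))
  have e1 : ∫⁻ s in Ioo 0 Real.pi, ∫⁻ t in Ioo s Real.pi, K s t =
      ∫⁻ s, ∫⁻ t, if 0 < s ∧ s < t ∧ t < Real.pi then K s t else 0 := by
    rw [← lintegral_indicator measurableSet_Ioo]
    apply lintegral_congr
    intro s
    by_cases hs : s ∈ Ioo 0 Real.pi
    · rw [indicator_of_mem hs, ← lintegral_indicator measurableSet_Ioo]
      apply lintegral_congr
      intro t
      by_cases ht : t ∈ Ioo s Real.pi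
      · rw [indicator_of_mem ht, if_pos ⟨hs.1, ht.1, ht.2⟩]
      · rw [indicator_of_notMem ht, if_neg (fun h => ht ⟨h.2.1, h.2.2⟩)]
    · rw [indicator_of_notMem hs]
      symm
      rw [lintegral_eq_zero_of_ae_eq_zero]
      apply ae_of_all
      intro t
      exact if_neg (fun h => hs ⟨h.1, h.2.1.trans h.2.2⟩)
  have e2 : ∫⁻ t in Ioo 0 Real.pi, ∫⁻ s in Ioo 0 t, K s t =
      ∫⁻ t, ∫⁻ s, if 0 < s ∧ s < t ∧ t < Real.pi then K s t else 0 := by
    rw [← lintegral_indicator measurableSet_Ioo]
    apply lintegral_congr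
    intro t
    by_cases ht : t ∈ Ioo 0 Real.pi
    · rw [indicator_of_mem ht, ← lintegral_indicator measurableSet_Ioo]
      apply lintegral_congr
      intro s
      by_cases hs : s ∈ Ioo 0 t
      · rw [indicator_of_mem hs, if_pos ⟨hs.1, hs.2, ht.2⟩]
      · rw [indicator_of_notMem hs, if_neg (fun h => hs ⟨h.1, h.2.1⟩)]
    · rw [indicator_of_notMem ht]
      symm
      rw [lintegral_eq_zero_of_ae_eq_zero]
      apply ae_of_all
      intro s
      exact if_neg (fun h => ht ⟨h.1.trans h.2.1, h.2.2⟩)
  rw [e1, e2]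
  exact lintegral_lintegral_swap hH.aemeasurable

open scoped Classical in
private theorem HKL_tri3 (G : ℝ → ℝ → ℝ≥0∞) (F : ℝ → ℝ≥0∞) (hG : Measurable (Function.uncurry G))
    (hF : Measurable F) :
    ∫⁻ s in Ioo 0 Real.pi, ∫⁻ t in Ioo s Real.pi, G s t * ∫⁻ r in Ioo s t, F r =
      ∫⁻ r in Ioo 0 Real.pi, F r * ∫⁻ s in Ioo 0 r, ∫⁻ t in Ioo r Real.pi, G s t := by
  have hset : MeasurableSet {p : (ℝ × ℝ) × ℝ | 0 < p.1.1 ∧ p.1.1 < p.1.2 ∧ p.1.2 < p.2 ∧ p.2 < Real.pi} := by
    exact (measurableSet_lt measurable_const (measurable_fst.comp measurable_fst)).inter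
      ((measurableSet_lt (measurable_fst.comp measurable_fst) (measurable_snd.comp measurable_fst)).inter
        ((measurableSet_lt (measurable_snd.comp measurable_fst) measurable_snd).inter
          (measurableSet_lt measurable_snd measurable_const)))
  -- order of variables ((s, r), t)
  have hH : Measurable (fun p : (ℝ × ℝ) × ℝ =>
      if 0 < p.1.1 ∧ p.1.1 < p.1.2 ∧ p.1.2 < p.2 ∧ p.2 < Real.pi then G p.1.1 p.2 * F p.1.2 else 0) := by
    apply Measurable.ite hset _ measurable_const
    apply Measurable.mul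
    · exact hG.comp ((measurable_fst.comp measurable_fst).prodMk measurable_snd)
    · exact hF.comp (measurable_snd.comp measurable_fst)
  have e1 : ∫⁻ s in Ioo 0 Real.pi, ∫⁻ t in Ioo s Real.pi, G s t * ∫⁻ r in Ioo s t, F r =
      ∫⁻ s, ∫⁻ t, ∫⁻ r, if 0 < s ∧ s < r ∧ r < t ∧ t < Real.pi then G s t * F r else 0 := by
    rw [← lintegral_indicator measurableSet_Ioo]
    apply lintegral_congr
    intro s
    by_cases hs : s ∈ Ioo 0 Real.pi
    · rw [indicator_of_mem hs, ← lintegral_indicator measurableSet_Ioo]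
      apply lintegral_congr
      intro t
      by_cases ht : t ∈ Ioo s Real.pi
      · rw [indicator_of_mem ht, ← lintegral_const_mul _ hF, ← lintegral_indicator measurableSet_Ioo]
        apply lintegral_congr
        intro r
        by_cases hr : r ∈ Ioo s t
        · rw [indicator_of_mem hr, if_pos ⟨hs.1, hr.1, hr.2, ht.2⟩]
        · rw [indicator_of_notMem hr, if_neg (fun h => hr ⟨h.2.1, h.2.2.1⟩)]
      · rw [indicator_of_notMem ht]
        symm
        rw [lintegral_eq_zero_of_ae_eq_zero]
        apply ae_of_all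
        intro r
        exact if_neg (fun h => ht ⟨h.2.1.trans h.2.2.1, h.2.2.2⟩)
    · rw [indicator_of_notMem hs]
      symm
      rw [lintegral_eq_zero_of_ae_eq_zero]
      apply ae_of_all
      intro t
      exact lintegral_eq_zero_of_ae_eq_zero (ae_of_all _ fun r =>
        if_neg (fun h => hs ⟨h.1, h.2.1.trans (h.2.2.1.trans h.2.2.2)⟩))
  have e2 : ∫⁻ r in Ioo 0 Real.pi, F r * ∫⁻ s in Ioo 0 r, ∫⁻ t in Ioo r Real.pi, G s t =
      ∫⁻ r, ∫⁻ s, ∫⁻ t, if 0 < s ∧ s < r ∧ r < t ∧ t < Real.pi then G s t * F r else 0 := by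
    rw [← lintegral_indicator measurableSet_Ioo]
    apply lintegral_congr
    intro r
    by_cases hr : r ∈ Ioo 0 Real.pi
    · rw [indicator_of_mem hr, ← lintegral_const_mul, ← lintegral_indicator measurableSet_Ioo]
      · apply lintegral_congr
        intro s
        by_cases hs : s ∈ Ioo 0 r
        · rw [indicator_of_mem hs, ← lintegral_const_mul, ← lintegral_indicator measurableSet_Ioo]
          · apply lintegral_congr
            intro t
            by_cases ht : t ∈ Ioo r Real.pi
            · rw [indicator_of_mem ht, if_pos ⟨hs.1, hs.2, ht.1, ht.2⟩, mul_comm]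
            · rw [indicator_of_notMem ht, if_neg (fun h => ht ⟨h.2.2.1, h.2.2.2⟩)]
          · exact hG.comp (measurable_const.prodMk measurable_id)
        · rw [indicator_of_notMem hs]
          symm
          rw [lintegral_eq_zero_of_ae_eq_zero]
          apply ae_of_all
          intro t
          exact if_neg (fun h => hs ⟨h.1, h.2.1⟩)
      · exact Measurable.lintegral_prod_right' hG
    · rw [indicator_of_notMem hr]
      symm
      rw [lintegral_eq_zero_of_ae_eq_zero]
      apply ae_of_all
      intro s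
      exact lintegral_eq_zero_of_ae_eq_zero (ae_of_all _ fun t =>
        if_neg (fun h => hr ⟨h.1.trans h.2.1, h.2.2.1.trans h.2.2.2⟩))
  rw [e1, e2]
  have e3 : ∀ s : ℝ, (∫⁻ t : ℝ, ∫⁻ r : ℝ, if 0 < s ∧ s < r ∧ r < t ∧ t < Real.pi then G s t * F r else 0) =
      ∫⁻ r : ℝ, ∫⁻ t : ℝ, if 0 < s ∧ s < r ∧ r < t ∧ t < Real.pi then G s t * F r else 0 := by
    intro s
    apply lintegral_lintegral_swap
    apply Measurable.aemeasurable
    exact hH.comp ((measurable_const.prodMk measurable_snd).prodMk measurable_fst)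
  rw [lintegral_congr e3]
  apply lintegral_lintegral_swap
  apply Measurable.aemeasurable
  exact hH.lintegral_prod_right'

theorem HKL (h1 : HKE_stmt) : HKL_stmt := by
  intro n hn f hf hf0
  have hsin : ∀ x : ℝ, 0 < x → x < Real.pi → 0 < Real.sin x := fun x => Real.sin_pos_of_pos_of_lt_pi
  have hcs : Continuous fun x : ℝ => Real.sin x ^ (n - 1) := by fun_prop
  constructor
  · -- first formula
    have hk : Continuous fun p : ℝ × ℝ => Real.sin (p.2 - p.1) ^ (n - 1) := by fun_prop
    have hm1 : Measurable (Function.uncurry fun s t : ℝ =>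
        ENNReal.ofReal (Real.sin (t - s) ^ (n - 1) * f t)) :=
      (hk.measurable.mul (hf.comp measurable_snd)).ennreal_ofReal
    have hm2 : Measurable (Function.uncurry fun s t : ℝ =>
        ENNReal.ofReal (Real.sin (t - s) ^ (n - 1) * f s)) :=
      (hk.measurable.mul (hf.comp measurable_fst)).ennreal_ofReal
    have e1 : ∫⁻ s in Ioo 0 Real.pi, ∫⁻ t in Ioo s Real.pi,
        ENNReal.ofReal (Real.sin (t - s) ^ (n - 1) * (f s + f t)) =
        (∫⁻ s in Ioo 0 Real.pi, ∫⁻ t in Ioo s Real.pi,
          ENNReal.ofReal (Real.sin (t - s) ^ (n - 1) * f s)) +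
        ∫⁻ s in Ioo 0 Real.pi, ∫⁻ t in Ioo s Real.pi,
          ENNReal.ofReal (Real.sin (t - s) ^ (n - 1) * f t) := by
      have hA : ∀ s ∈ Ioo 0 Real.pi, ∫⁻ t in Ioo s Real.pi,
          ENNReal.ofReal (Real.sin (t - s) ^ (n - 1) * (f s + f t)) =
          (∫⁻ t in Ioo s Real.pi, ENNReal.ofReal (Real.sin (t - s) ^ (n - 1) * f s)) +
          ∫⁻ t in Ioo s Real.pi, ENNReal.ofReal (Real.sin (t - s) ^ (n - 1) * f t) := by
        intro s hs
        have hm2s : Measurable fun t : ℝ => ENNReal.ofReal (Real.sin (t - s) ^ (n - 1) * f s) :=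
          Measurable.ennreal_ofReal (Measurable.mul_const (by fun_prop) (f s))
        rw [← lintegral_add_left hm2s]
        apply setLIntegral_congr_fun measurableSet_Ioo
        intro t ht
        have hp : 0 ≤ Real.sin (t - s) ^ (n - 1) :=
          pow_nonneg (hsin _ (by linarith [ht.1]) (by linarith [ht.2, hs.1])).le _
        simp only [mul_add]
        exact ENNReal.ofReal_add (mul_nonneg hp (hf0 s)) (mul_nonneg hp (hf0 t))
      rw [setLIntegral_congr_fun measurableSet_Ioo hA, lintegral_add_right']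
      apply AEMeasurable.restrict
      apply Measurable.aemeasurable
      have h2 : (fun s : ℝ => ∫⁻ t in Ioo s Real.pi, ENNReal.ofReal (Real.sin (t - s) ^ (n - 1) * f t)) =
          fun s : ℝ => ∫⁻ t : ℝ, (fun p : ℝ × ℝ => (Ioo p.1 Real.pi).indicator
            (fun t => ENNReal.ofReal (Real.sin (t - p.1) ^ (n - 1) * f t)) p.2) (s, t) := by
        funext s
        rw [← lintegral_indicator measurableSet_Ioo]
      rw [h2]
      have h3 : (fun p : ℝ × ℝ => (Ioo p.1 Real.pi).indicator
            (fun t => ENNReal.ofReal (Real.sin (t - p.1) ^ (n - 1) * f t)) p.2) =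
          {p : ℝ × ℝ | p.1 < p.2 ∧ p.2 < Real.pi}.indicator (fun p : ℝ × ℝ =>
            ENNReal.ofReal (Real.sin (p.2 - p.1) ^ (n - 1) * f p.2)) := by
        funext p
        by_cases hp : p.1 < p.2 ∧ p.2 < Real.pi
        · rw [indicator_of_mem (show p.2 ∈ Ioo p.1 Real.pi from hp),
            indicator_of_mem (show p ∈ {p : ℝ × ℝ | p.1 < p.2 ∧ p.2 < Real.pi} from hp)]
        · rw [indicator_of_notMem (show p.2 ∉ Ioo p.1 Real.pi from hp),
            indicator_of_notMem (show p ∉ {p : ℝ × ℝ | p.1 < p.2 ∧ p.2 < Real.pi} from hp)]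
      have h4 : Measurable (fun p : ℝ × ℝ => (Ioo p.1 Real.pi).indicator
            (fun t => ENNReal.ofReal (Real.sin (t - p.1) ^ (n - 1) * f t)) p.2) := by
        rw [h3]
        exact hm1.indicator ((measurableSet_lt measurable_fst measurable_snd).inter
          (measurableSet_lt measurable_snd measurable_const))
      exact h4.lintegral_prod_right'
    rw [e1, HKL_tri _ hm1]
    have e2 : ∀ s ∈ Ioo 0 Real.pi, ∫⁻ t in Ioo s Real.pi,
        ENNReal.ofReal (Real.sin (t - s) ^ (n - 1) * f s) =
        ENNReal.ofReal (∫ x in s..Real.pi, Real.sin x ^ (n - 1)) * ENNReal.ofReal (f s) := by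
      intro s hs
      have g0 : ∀ t ∈ Ioo s Real.pi, 0 ≤ Real.sin (t - s) ^ (n - 1) := fun t ht =>
        pow_nonneg (hsin _ (by linarith [ht.1]) (by linarith [ht.2, hs.1])).le _
      have g1 : ∀ t ∈ Ioo s Real.pi, ENNReal.ofReal (Real.sin (t - s) ^ (n - 1) * f s) =
          ENNReal.ofReal (Real.sin (t - s) ^ (n - 1)) * ENNReal.ofReal (f s) :=
        fun t ht => ENNReal.ofReal_mul (g0 t ht)
      have g2 : Measurable fun t : ℝ => ENNReal.ofReal (Real.sin (t - s) ^ (n - 1)) := by fun_prop
      have g3 := HKL_int s Real.pi hs.2.le (fun t => Real.sin (t - s) ^ (n - 1)) (by fun_prop) g0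
      have g4 : (∫ t in s..Real.pi, Real.sin (t - s) ^ (n - 1)) =
          ∫ x in s..Real.pi, Real.sin x ^ (n - 1) := by
        have h3 := intervalIntegral.integral_comp_sub_left (a := 0) (b := Real.pi - s)
          (fun x => Real.sin x ^ (n - 1)) Real.pi
        have h4 := intervalIntegral.integral_comp_sub_right (a := s) (b := Real.pi)
          (fun x => Real.sin x ^ (n - 1)) s
        simp only [Real.sin_pi_sub, sub_self, sub_zero, sub_sub_cancel] at h3 h4
        rw [h4, h3]
      rw [setLIntegral_congr_fun measurableSet_Ioo g1, lintegral_mul_const _ g2, g3, g4]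
    have e3 : ∀ t ∈ Ioo 0 Real.pi, ∫⁻ s in Ioo 0 t,
        ENNReal.ofReal (Real.sin (t - s) ^ (n - 1) * f t) =
        ENNReal.ofReal (∫ x in (0 : ℝ)..t, Real.sin x ^ (n - 1)) * ENNReal.ofReal (f t) := by
      intro t ht
      have g0 : ∀ s ∈ Ioo 0 t, 0 ≤ Real.sin (t - s) ^ (n - 1) := fun s hs =>
        pow_nonneg (hsin _ (by linarith [hs.2]) (by linarith [ht.2, hs.1])).le _
      have g1 : ∀ s ∈ Ioo 0 t, ENNReal.ofReal (Real.sin (t - s) ^ (n - 1) * f t) =
          ENNReal.ofReal (Real.sin (t - s) ^ (n - 1)) * ENNReal.ofReal (f t) :=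
        fun s hs => ENNReal.ofReal_mul (g0 s hs)
      have g2 : Measurable fun s : ℝ => ENNReal.ofReal (Real.sin (t - s) ^ (n - 1)) := by fun_prop
      have g3 := HKL_int 0 t ht.1.le (fun s => Real.sin (t - s) ^ (n - 1)) (by fun_prop) g0
      have g4 : (∫ s in (0 : ℝ)..t, Real.sin (t - s) ^ (n - 1)) =
          ∫ x in (0 : ℝ)..t, Real.sin x ^ (n - 1) := by
        have h4 := intervalIntegral.integral_comp_sub_left (a := 0) (b := t)
          (fun x => Real.sin x ^ (n - 1)) t
        simp only [sub_self, sub_zero] at h4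
        exact h4
      rw [setLIntegral_congr_fun measurableSet_Ioo g1, lintegral_mul_const _ g2, g3, g4]
    rw [setLIntegral_congr_fun measurableSet_Ioo e2, setLIntegral_congr_fun measurableSet_Ioo e3,
      ← lintegral_const_mul _ hf.ennreal_ofReal]
    rw [← lintegral_add_left]
    · apply setLIntegral_congr_fun measurableSet_Ioo
      intro s hs
      simp only
      rw [← add_mul, ← ENNReal.ofReal_add, add_comm, intervalIntegral.integral_add_adjacent_intervals]
      · exact hcs.intervalIntegrable _ _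
      · exact hcs.intervalIntegrable _ _
      · apply intervalIntegral.integral_nonneg hs.2.le
        intro x hx
        exact pow_nonneg (Real.sin_nonneg_of_nonneg_of_le_pi (by linarith [hx.1, hs.1]) hx.2) _
      · apply intervalIntegral.integral_nonneg hs.1.le
        intro x hx
        exact pow_nonneg (Real.sin_nonneg_of_nonneg_of_le_pi hx.1 (by linarith [hx.2, hs.2])) _
    · have h6 : Measurable fun s : ℝ => ENNReal.ofReal (∫ x in s..Real.pi, Real.sin x ^ (n - 1)) := by
        apply Measurable.ennreal_ofReal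
        apply Continuous.measurable
        have h5 : (fun s : ℝ => ∫ x in s..Real.pi, Real.sin x ^ (n - 1)) =
            fun s : ℝ => - ∫ x in Real.pi..s, Real.sin x ^ (n - 1) := by
          funext s
          rw [intervalIntegral.integral_symm]
        rw [h5]
        exact (intervalIntegral.continuous_primitive
          (fun a b => hcs.intervalIntegrable a b) Real.pi).neg
      exact h6.mul hf.ennreal_ofReal
  · -- second formula
    have hkc : Continuous fun p : ℝ × ℝ =>
        2 * Real.sin (p.2 - p.1) ^ (n - 2) * (Real.sin p.1 * Real.sin p.2) := by fun_prop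
    have hG : Measurable (Function.uncurry fun s t : ℝ =>
        ENNReal.ofReal (2 * Real.sin (t - s) ^ (n - 2) * (Real.sin s * Real.sin t))) :=
      hkc.measurable.ennreal_ofReal
    have hF : Measurable fun r : ℝ => ENNReal.ofReal (f r / Real.sin r ^ 2) :=
      (hf.div (by fun_prop)).ennreal_ofReal
    rw [HKL_tri3 _ _ hG hF, ← lintegral_const_mul _ hf.ennreal_ofReal]
    apply setLIntegral_congr_fun measurableSet_Ioo
    intro r hr
    have hsr := hsin r hr.1 hr.2
    have e1 : ∀ s ∈ Ioo 0 r, ∫⁻ t in Ioo r Real.pi,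
        ENNReal.ofReal (2 * Real.sin (t - s) ^ (n - 2) * (Real.sin s * Real.sin t)) =
        ENNReal.ofReal (∫ t in r..Real.pi,
          2 * Real.sin (t - s) ^ (n - 2) * (Real.sin s * Real.sin t)) := by
      intro s hs
      apply HKL_int r Real.pi hr.2.le
        (fun t => 2 * Real.sin (t - s) ^ (n - 2) * (Real.sin s * Real.sin t))
      · fun_prop
      · intro t ht
        have a1 := hsin (t - s) (by linarith [hs.2, ht.1]) (by linarith [hs.1, ht.2])
        have a2 := hsin s hs.1 (by linarith [hs.2, hr.2])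
        have a3 := hsin t (by linarith [hr.1, ht.1]) ht.2
        positivity
    simp only
    rw [setLIntegral_congr_fun measurableSet_Ioo e1, HKL_int 0 r hr.1.le
      (fun s => ∫ t in r..Real.pi, 2 * Real.sin (t - s) ^ (n - 2) * (Real.sin s * Real.sin t))]
    · have e2 : (∫ s in (0 : ℝ)..r, ∫ t in r..Real.pi,
          2 * Real.sin (t - s) ^ (n - 2) * (Real.sin s * Real.sin t)) =
          2 * ∫ s in (0 : ℝ)..r, ∫ t in r..Real.pi,
            Real.sin (t - s) ^ (n - 2) * (Real.sin s * Real.sin t) := by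
        rw [← intervalIntegral.integral_const_mul]
        congr 1
        funext s
        rw [← intervalIntegral.integral_const_mul]
        congr 1
        funext t
        ring
      rw [e2, h1 n hn r ⟨hr.1.le, hr.2.le⟩]
      have h0 : 0 ≤ ∫ x in (0 : ℝ)..Real.pi, Real.sin x ^ (n - 1) := by
        apply intervalIntegral.integral_nonneg Real.pi_pos.le
        intro x hx
        exact pow_nonneg (Real.sin_nonneg_of_nonneg_of_le_pi hx.1 hx.2) _
      rw [← ENNReal.ofReal_mul (div_nonneg (hf0 r) (by positivity)), ← ENNReal.ofReal_mul h0]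
      congr 1
      field_simp
    · exact intervalIntegral.continuous_parametric_intervalIntegral_of_continuous' (by
        simp only [Function.uncurry_def]
        fun_prop) _ _
    · intro s hs
      apply intervalIntegral.integral_nonneg hr.2.le
      intro t ht
      have a1 : 0 ≤ Real.sin (t - s) :=
        Real.sin_nonneg_of_nonneg_of_le_pi (by linarith [hs.2, ht.1]) (by linarith [hs.1, ht.2])
      have a2 := hsin s hs.1 (by linarith [hs.2, hr.2])
      have a3 : 0 ≤ Real.sin t := Real.sin_nonneg_of_nonneg_of_le_pi (by linarith [hr.1, ht.1]) ht.2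
      positivity

end Pool.Agent.CRO
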